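import Pool.Agent.H140.HK.Main

/-!
# Hankel determinants of the inverse Thue-Morse series (full answer)
-/

namespace Pool.Agent.Results.MP_ff738c_co.HankelSmall

open PowerSeries Finset
open Pool.Agent.H140.HK (w vq w_eq vq_four_two w_mod w_cases vq_mul hmat)

/-- The Thue-Morse sequence `t_n`: parity of the sum of the binary digits of `n`. -/
def t (n : ℕ) : ℕ := (Nat.digits 2 n).sum % 2

/-- The series `F(X) = ∑_{n ≥ 1} t_n X^n` over the field with two elements. -/
noncomputable def F : (ZMod 2)⟦X⟧ := PowerSeries.mk fun n => if n = 0 then 0 else (t n : ZMod 2)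

lemma coeff_sq (f : (ZMod 2)⟦X⟧) (n : ℕ) :
    coeff n (f ^ 2) = if n % 2 = 0 then coeff (n / 2) f else 0 := by
  rw [pow_two, coeff_mul]
  have h2 : (2 : ZMod 2) = 0 := rfl
  have hadd : ∀ x : ZMod 2, x + x = 0 := by decide
  have hsq : ∀ x : ZMod 2, x * x = x := by decide
  split_ifs with h
  · rw [← Finset.add_sum_erase _ _ (show (n / 2, n / 2) ∈ antidiagonal n by
      rw [HasAntidiagonal.mem_antidiagonal]; omega), hsq]
    rw [add_eq_left]
    apply Finset.sum_involution (fun x _ => (x.2, x.1))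
    · intro x _
      rw [mul_comm (coeff x.2 f)]
      exact hadd _
    · intro x hx _ heq
      rw [Finset.mem_erase, HasAntidiagonal.mem_antidiagonal] at hx
      apply hx.1
      have h1 : x.2 = x.1 := congrArg Prod.fst heq
      ext
      · simp only; omega
      · simp only; omega
    · intro x hx
      rw [Finset.mem_erase, HasAntidiagonal.mem_antidiagonal] at hx ⊢
      refine ⟨?_, by simp only; omega⟩
      intro heq
      apply hx.1
      have h1 : x.2 = n / 2 := congrArg Prod.fst heq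
      have h3 : x.1 = n / 2 := congrArg Prod.snd heq
      ext
      · simp only; omega
      · simp only; omega
    · intro x _; rfl
  · apply Finset.sum_involution (fun x _ => (x.2, x.1))
    · intro x _
      rw [mul_comm (coeff x.2 f)]
      exact hadd _
    · intro x hx _ heq
      rw [HasAntidiagonal.mem_antidiagonal] at hx
      have h1 : x.2 = x.1 := congrArg Prod.fst heq
      omega
    · intro x hx
      rw [HasAntidiagonal.mem_antidiagonal] at hx ⊢
      simp only
      omega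
    · intro x _; rfl

lemma t_even (n : ℕ) : t (2 * n) = t n := by
  unfold t
  rcases Nat.eq_zero_or_pos n with rfl | hn
  · simp
  · rw [Nat.digits_def' (by norm_num) (by omega)]
    have h1 : 2 * n % 2 = 0 := by omega
    have h2 : 2 * n / 2 = n := by omega
    rw [h1, h2]
    simp

lemma t_odd (n : ℕ) : (t (2 * n + 1) : ZMod 2) = t n + 1 := by
  have e : t (2 * n + 1) = ((Nat.digits 2 n).sum + 1) % 2 := by
    unfold t
    rw [Nat.digits_def' (by norm_num) (by omega)]
    have h1 : (2 * n + 1) % 2 = 1 := by omega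
    have h2 : (2 * n + 1) / 2 = n := by omega
    rw [h1, h2]
    simp [add_comm]
  rw [e]
  unfold t
  rw [ZMod.natCast_mod, ZMod.natCast_mod]
  push_cast
  rfl

lemma coeff_F (n : ℕ) : coeff n F = (t n : ZMod 2) := by
  unfold F
  rw [coeff_mk]
  split_ifs with h
  · subst h; simp [t]
  · rfl

lemma F_aux : F + (1 + X) * F ^ 2 = PowerSeries.mk fun n => if n % 2 = 1 then 1 else 0 := by
  have hadd : ∀ x : ZMod 2, x + x = 0 := by decide
  ext n
  rw [coeff_mk, map_add, add_mul, one_mul, map_add]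
  rcases Nat.even_or_odd' n with ⟨m, rfl | rfl⟩
  · have h0 : 2 * m % 2 = 0 := by omega
    rw [coeff_sq, coeff_F, if_pos h0, coeff_F, t_even]
    have h1 : 2 * m / 2 = m := by omega
    rw [h1]
    have h3 : coeff (2 * m) (X * F ^ 2) = 0 := by
      rcases Nat.eq_zero_or_pos m with rfl | hm
      · simp
      · obtain ⟨k, rfl⟩ : ∃ k, m = k + 1 := ⟨m - 1, by omega⟩
        have : 2 * (k + 1) = (2 * k + 1) + 1 := by ring
        rw [this, coeff_succ_X_mul, coeff_sq, if_neg (by omega)]
    rw [h3, add_zero, hadd, if_neg (by omega)]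
  · have h0 : ¬ ((2 * m + 1) % 2 = 0) := by omega
    rw [coeff_sq, if_neg h0, coeff_F, t_odd, coeff_succ_X_mul, coeff_sq, if_pos (by omega),
      coeff_F, if_pos (by omega)]
    have h1 : 2 * m / 2 = m := by omega
    rw [h1]
    generalize (t m : ZMod 2) = x
    revert x
    decide

lemma F_eq : (1 + X ^ 2) * (F + (1 + X) * F ^ 2) = X := by
  have hadd : ∀ x : ZMod 2, x + x = 0 := by decide
  rw [F_aux]
  ext n
  rw [add_mul, one_mul, map_add, coeff_mk, coeff_X]
  rcases n with _ | _ | n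
  · simp
  · have : coeff 1 (X ^ 2 * (PowerSeries.mk fun n => if n % 2 = 1 then (1 : ZMod 2) else 0)) = 0 := by
      rw [coeff_X_pow_mul']
      simp
    rw [this]
    simp
  · rw [show n + 1 + 1 = n + 2 from rfl, coeff_X_pow_mul, coeff_mk]
    have h1 : (n + 2) % 2 = n % 2 := by omega
    rw [h1, hadd, if_neg (by omega)]

lemma G_eq (G : (ZMod 2)⟦X⟧) (hG0 : constantCoeff G = 0) (hG : F.subst G = (X : (ZMod 2)⟦X⟧)) :
    (1 + X) * G = X + X ^ 3 + X ^ 3 * G ^ 4 := by
  have hs : HasSubst G := HasSubst.of_constantCoeff_zero' hG0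
  have E0 := congrArg (substAlgHom (R := ZMod 2) hs) F_eq
  have hF : substAlgHom (R := ZMod 2) hs F = X := by rw [coe_substAlgHom]; exact hG
  have hX : substAlgHom (R := ZMod 2) hs (X : (ZMod 2)⟦X⟧) = G := substAlgHom_X hs
  rw [map_mul, map_add, map_add, map_mul, map_add, map_pow, map_pow, map_one, hF, hX] at E0
  have h2 : (2 : (ZMod 2)⟦X⟧) = 0 := by
    have h : (C (2 : ZMod 2) : (ZMod 2)⟦X⟧) = 2 := map_ofNat C 2
    rw [← h, show (2 : ZMod 2) = 0 from rfl, map_zero]
  linear_combination (X * G + X + 1) * E0 + (G + X * G - X - X ^ 3 - X ^ 3 * G ^ 4 - X ^ 2 * G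
    - X ^ 3 * G - X ^ 3 * G ^ 2 - X ^ 2 * G ^ 3 - X ^ 3 * G ^ 3 - X ^ 2 - X ^ 2 * G ^ 2) * h2

/-- The integer values `u(m+1) + u(m)`. -/
def y (m : ℕ) : ℤ := vq 2 ((m : ℤ) + 1) + vq 2 m

lemma vq_odd (M : ℤ) : vq 2 (2 * M + 1) = 0 := by
  unfold vq
  rw [if_neg (by omega)]

lemma vq_two_mul (M : ℤ) : vq 2 (2 * M) = w M := vq_mul 2 (by norm_num) M

lemma y_cases (m : ℕ) : y m = 0 ∨ y m = 1 := by
  unfold y
  rcases Int.even_or_odd' (m : ℤ) with ⟨M, h | h⟩
  · rw [h, vq_odd, vq_two_mul, zero_add]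
    exact w_cases M
  · rw [h, vq_odd, add_zero, show 2 * M + 1 + 1 = 2 * (M + 1) by ring, vq_two_mul]
    exact w_cases _

lemma w_zero_aux : w 0 = 1 := by
  unfold w Pool.Agent.H140.HK.wn
  simp

/-- `w(2M) = w(2M+1) = u(M)`. -/
lemma w_two_mul (M : ℤ) : w (2 * M) = vq 2 M ∧ w (2 * M + 1) = vq 2 M := by
  rcases Int.even_or_odd' M with ⟨N, h | h⟩
  · rw [h, vq_two_mul]
    have h0 := w_mod N 0 (by norm_num)
    have h1 := w_mod N 1 (by norm_num)
    simp only [Nat.cast_zero, add_zero, Nat.cast_one] at h0 h1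
    rw [show 2 * (2 * N) = 4 * N by ring, h0, h1]
    simp
  · rw [h, vq_odd]
    have h0 := w_mod N 2 (by norm_num)
    have h1 := w_mod N 3 (by norm_num)
    simp only [Nat.cast_ofNat] at h0 h1
    rw [show 2 * (2 * N + 1) + 1 = 4 * N + 3 by ring, show 2 * (2 * N + 1) = 4 * N + 2 by ring,
      h0, h1]
    simp

lemma coeff_G4 (G : (ZMod 2)⟦X⟧) (n : ℕ) :
    coeff n (G ^ 4) = if n % 4 = 0 then coeff (n / 4) G else 0 := by
  have : G ^ 4 = (G ^ 2) ^ 2 := by ring
  rw [this, coeff_sq, coeff_sq]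
  by_cases h4 : n % 4 = 0
  · rw [if_pos (by omega), if_pos (by omega), if_pos h4]
    have h5 : n / 2 / 2 = n / 4 := by omega
    rw [h5]
  · rw [if_neg h4]
    by_cases h2 : n % 2 = 0
    · rw [if_pos h2, if_neg (by omega)]
    · rw [if_neg h2]

lemma coeff_rec (G : (ZMod 2)⟦X⟧) (h : (1 + X) * G = X + X ^ 3 + X ^ 3 * G ^ 4) (n : ℕ) :
    coeff (n + 1) G = - coeff n G + (if n = 0 then 1 else 0) + (if n = 2 then 1 else 0) +
      (if 2 ≤ n ∧ n % 4 = 2 then coeff ((n - 2) / 4) G else 0) := by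
  have h1 := congrArg (coeff (n + 1)) h
  rw [add_mul, one_mul, map_add, coeff_succ_X_mul, map_add, map_add, coeff_X, coeff_X_pow,
    coeff_X_pow_mul'] at h1
  have e1 : (n + 1 = 1) ↔ n = 0 := by omega
  have e2 : (n + 1 = 3) ↔ n = 2 := by omega
  simp only [e1, e2] at h1
  have e3 : (if 3 ≤ n + 1 then coeff (n + 1 - 3) (G ^ 4) else 0) =
      (if 2 ≤ n ∧ n % 4 = 2 then coeff ((n - 2) / 4) G else 0) := by
    by_cases hn : 2 ≤ n
    · rw [if_pos (by omega), coeff_G4]
      have e4 : n + 1 - 3 = n - 2 := by omega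
      rw [e4]
      have e5 : ((n - 2) % 4 = 0) ↔ (2 ≤ n ∧ n % 4 = 2) := by omega
      simp only [e5]
    · rw [if_neg (by omega), if_neg (by omega)]
  rw [e3] at h1
  linear_combination h1

lemma coeff_G (G : (ZMod 2)⟦X⟧) (hG0 : constantCoeff G = 0)
    (h : (1 + X) * G = X + X ^ 3 + X ^ 3 * G ^ 4) (m : ℕ) (hm : 1 ≤ m) :
    coeff m G = (y m : ZMod 2) := by
  have hc0 : coeff 0 G = 0 := by rw [coeff_zero_eq_constantCoeff_apply]; exact hG0
  have hadd : ∀ x : ZMod 2, x + x = 0 := by decide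
  have hneg : ∀ x : ZMod 2, -x = x := by decide
  induction m using Nat.strong_induction_on with
  | _ m ih =>
    obtain ⟨n, rfl⟩ : ∃ n, m = n + 1 := ⟨m - 1, by omega⟩
    rw [coeff_rec G h n, hneg]
    rcases Nat.eq_zero_or_pos n with rfl | hn
    · rw [hc0]
      have e : y (0 + 1) = 1 := by
        unfold y
        have h1 : (((0 + 1 : ℕ) : ℤ) + 1) = 2 * 1 := by norm_num
        have h2 : (((0 + 1 : ℕ) : ℤ)) = 2 * 0 + 1 := by norm_num
        rw [h1, h2, vq_odd, vq_two_mul]
        have := (w_two_mul 0).2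
        simp only [mul_zero, zero_add] at this
        rw [this]
        have h3 := vq_two_mul 0
        rw [mul_zero] at h3
        rw [h3, w_zero_aux]
        norm_num
      rw [e]
      simp
    · rw [ih n (by omega) hn]
      -- y (n+1) - y n = u(n+2) - u(n) mod 2
      have key : (y (n + 1) : ZMod 2) = (y n : ZMod 2) +
          ((vq 2 ((n : ℤ) + 2) + vq 2 n : ℤ) : ZMod 2) := by
        unfold y
        push_cast
        have e1 : ((n : ℤ) + 1 + 1) = n + 2 := by ring
        rw [e1]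
        generalize ((vq 2 ((n : ℤ) + 2) : ℤ) : ZMod 2) = a
        generalize ((vq 2 ((n : ℤ) + 1) : ℤ) : ZMod 2) = b
        generalize ((vq 2 (n : ℤ) : ℤ) : ZMod 2) = c
        revert a b c
        decide
      rw [key]
      have hn0 : n ≠ 0 := by omega
      rw [if_neg hn0, add_zero, add_assoc]
      congr 1
      -- cases modulo 4
      obtain ⟨k, r, hr, rfl⟩ : ∃ k r, r < 4 ∧ n = 4 * k + r := ⟨n / 4, n % 4, by omega, by omega⟩
      interval_cases r
      · rw [if_neg (by omega), if_neg (by omega)]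
        have e1 : (((4 * k + 0 : ℕ) : ℤ) + 2) = 2 * (2 * k + 1) := by push_cast; ring
        have e2 : ((4 * k + 0 : ℕ) : ℤ) = 2 * (2 * k) := by push_cast; ring
        rw [e1, e2, vq_two_mul, vq_two_mul, (w_two_mul _).1, (w_two_mul _).2]
        push_cast
        rw [hadd, hadd]
      · rw [if_neg (by omega), if_neg (by omega)]
        have e1 : (((4 * k + 1 : ℕ) : ℤ) + 2) = 2 * (2 * k + 1) + 1 := by push_cast; ring
        have e2 : ((4 * k + 1 : ℕ) : ℤ) = 2 * (2 * k) + 1 := by push_cast; ring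
        rw [e1, e2, vq_odd, vq_odd]
        simp
      · have e1 : (((4 * k + 2 : ℕ) : ℤ) + 2) = 2 * (2 * (k + 1)) := by push_cast; ring
        have e2 : ((4 * k + 2 : ℕ) : ℤ) = 2 * (2 * k + 1) := by push_cast; ring
        rw [e1, e2, vq_two_mul, vq_two_mul, (w_two_mul _).1, (w_two_mul _).2]
        rw [if_pos (by omega : 2 ≤ 4 * k + 2 ∧ (4 * k + 2) % 4 = 2)]
        have e3 : (4 * k + 2 - 2) / 4 = k := by omega
        rw [e3]
        rcases Nat.eq_zero_or_pos k with rfl | hk
        · rw [if_pos (by omega), hc0]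
          have h3 := vq_two_mul 0
          rw [mul_zero] at h3
          have h4 : vq 2 (((0 : ℕ) : ℤ) + 1) = 0 := by
            have := vq_odd 0
            simpa using this
          rw [h4]
          have h5 : vq 2 (((0 : ℕ) : ℤ)) = 1 := by
            simp only [Nat.cast_zero]
            rw [h3, w_zero_aux]
          rw [h5]
          simp
        · rw [if_neg (by omega), zero_add, ih k (by omega) hk]
          rfl
      · rw [if_neg (by omega), if_neg (by omega)]
        have e1 : (((4 * k + 3 : ℕ) : ℤ) + 2) = 2 * (2 * k + 2) + 1 := by push_cast; ring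
        have e2 : ((4 * k + 3 : ℕ) : ℤ) = 2 * (2 * k + 1) + 1 := by push_cast; ring
        rw [e1, e2, vq_odd, vq_odd]
        simp

/-- **Full answer to Q1 (yes).** Let `G` be the compositional inverse of the Thue-Morse series
`F` over the field with two elements and let `c_n ∈ {0,1}` be the integer representing its `n`-th
coefficient.  Then all Hankel determinants `H_{p,n} = det (c_{p+i+j-1})_{1 ≤ i,j ≤ n}` are
`-1`, `0` or `1`. -/
theorem result (G : (ZMod 2)⟦X⟧) (hG0 : constantCoeff G = 0)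
    (hG : F.subst G = (X : (ZMod 2)⟦X⟧)) (p n : ℕ) :
    (Matrix.of fun i j : Fin n =>
      (((coeff (p + (i : ℕ) + (j : ℕ) + 1) G : ZMod 2).val : ℕ) : ℤ)).det = 0 ∨
    (Matrix.of fun i j : Fin n =>
      (((coeff (p + (i : ℕ) + (j : ℕ) + 1) G : ZMod 2).val : ℕ) : ℤ)).det = 1 ∨
    (Matrix.of fun i j : Fin n =>
      (((coeff (p + (i : ℕ) + (j : ℕ) + 1) G : ZMod 2).val : ℕ) : ℤ)).det = -1 := by
  have h := G_eq G hG0 hG
  have e : (Matrix.of fun i j : Fin n =>
      (((coeff (p + (i : ℕ) + (j : ℕ) + 1) G : ZMod 2).val : ℕ) : ℤ)) =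
      hmat n ((p : ℤ) + 1) (fun N => vq 2 (N + 1) + 1 * vq 2 N) := by
    ext i j
    simp only [hmat, Matrix.of_apply]
    rw [coeff_G G hG0 h _ (by omega)]
    have hy : y (p + (i : ℕ) + (j : ℕ) + 1) =
        vq 2 ((p : ℤ) + 1 + (i : ℕ) + (j : ℕ) + 1) + 1 * vq 2 ((p : ℤ) + 1 + (i : ℕ) + (j : ℕ)) := by
      unfold y
      push_cast
      rw [one_mul]
      congr 2 <;> ring
    rw [← hy]
    rcases y_cases (p + (i : ℕ) + (j : ℕ) + 1) with h | h <;> rw [h]
    · rfl
    · rfl
  rw [e]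
  exact Pool.Agent.H140.HK.target n _

end Pool.Agent.Results.MP_ff738c_co.HankelSmall
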